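import Pool.Agent.BE01.Stmts

/-!
BE01, module ENG: the energy of the approximate solution.
-/

namespace Pool.Agent.BE01.H87

open Set Filter Topology
open scoped InnerProductSpace

noncomputable section

theorem sq_lower {a b e m : ℝ} (ha : 0 ≤ a) (ham : a ≤ m) (hb : 0 ≤ b) (he : 0 ≤ e)
    (h : a - e ≤ b) : a ^ 2 - 2 * m * e ≤ b ^ 2 := by
  have h1 : a ^ 2 - 2 * m * e ≤ a ^ 2 - 2 * a * e := by nlinarith
  rcases le_total e a with h2 | h2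
  · have h3 : (a - e) ^ 2 ≤ b ^ 2 := pow_le_pow_left₀ (by linarith) h 2
    nlinarith [sq_nonneg e]
  · nlinarith [sq_nonneg b]

/-- ENG -/
theorem eng : EngStmt := by
  intro H _ _ R ω C φ hω hφ hsym hRR
  have hφ0 : 0 < ‖φ‖ := norm_pos_iff.2 hφ
  have hω2 : (0 : ℝ) < ω ^ 2 := by positivity
  obtain ⟨m, hm⟩ : ∃ m, m = ω * ‖φ‖ := ⟨_, rfl⟩
  have hm0 : 0 < m := by rw [hm]; positivity
  -- the norm of `R φ`
  have hR1 : ω ^ 2 * ‖R φ‖ ^ 2 = ‖φ‖ ^ 2 := by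
    rw [← real_inner_self_eq_norm_sq, ← real_inner_self_eq_norm_sq, hsym]
    rw [← real_inner_smul_right, hRR]
  have hR2 : ω ^ 2 * ‖R φ‖ = m := by
    have h1 : (ω ^ 2 * ‖R φ‖) ^ 2 = m ^ 2 := by
      rw [hm, mul_pow, mul_pow, ← hR1]; ring
    exact (pow_left_inj₀ (by positivity) hm0.le two_ne_zero).1 h1
  have hC := abs_nonneg C
  have hRn := norm_nonneg R
  obtain ⟨B, hB⟩ : ∃ B, B = (1 + ‖R‖) * (|C| + 1) := ⟨_, rfl⟩
  have hB0 : 0 < B := by rw [hB]; positivity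
  refine ⟨m / (8 * B), m ^ 2 / 2, (2 * m) ^ 2 + (2 * m) ^ 2, by positivity, by positivity, ?_⟩
  intro ψ δ v q hδ0 hδ1 hv hq
  have hBδ : B * δ ≤ m / 8 := by
    calc B * δ ≤ B * (m / (8 * B)) := mul_le_mul_of_nonneg_left hδ1 hB0.le
      _ = m / 8 := by field_simp
  have hv' : ‖v + (ω * Real.sin ψ) • φ‖ ≤ B * δ := by
    refine hv.trans (mul_le_mul_of_nonneg_right ?_ hδ0)
    rw [hB]; nlinarith [le_abs_self C]
  have hq' : ‖R (q - (ω ^ 2 * Real.cos ψ) • φ)‖ ≤ B * δ := by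
    refine (R.le_opNorm _).trans ?_
    have h1 : ‖R‖ * ‖q - (ω ^ 2 * Real.cos ψ) • φ‖ ≤ ‖R‖ * (C * δ) :=
      mul_le_mul_of_nonneg_left hq hRn
    have h2 : ‖R‖ * (C * δ) ≤ B * δ := by
      rw [← mul_assoc]
      refine mul_le_mul_of_nonneg_right ?_ hδ0
      rw [hB]; nlinarith [le_abs_self C, mul_le_mul_of_nonneg_left (le_abs_self C) hRn]
    exact h1.trans h2
  rw [map_sub, map_smul] at hq'
  have hs : |Real.sin ψ| ≤ 1 := Real.abs_sin_le_one ψ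
  have hc : |Real.cos ψ| ≤ 1 := Real.abs_cos_le_one ψ
  have n1 : ‖(ω * Real.sin ψ) • φ‖ = |Real.sin ψ| * m := by
    rw [norm_smul, Real.norm_eq_abs, abs_mul, abs_of_pos hω, hm]; ring
  have n2 : ‖(ω ^ 2 * Real.cos ψ) • R φ‖ = |Real.cos ψ| * m := by
    rw [norm_smul, Real.norm_eq_abs, abs_mul, abs_of_pos hω2, ← hR2]; ring
  have v1 : |Real.sin ψ| * m - B * δ ≤ ‖v‖ := by
    have h1 : ‖(ω * Real.sin ψ) • φ‖ ≤ ‖v + (ω * Real.sin ψ) • φ‖ + ‖v‖ := by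
      calc ‖(ω * Real.sin ψ) • φ‖ = ‖(v + (ω * Real.sin ψ) • φ) - v‖ := by congr 1; abel
        _ ≤ _ := norm_sub_le _ _
    rw [n1] at h1
    linarith
  have v2 : ‖v‖ ≤ |Real.sin ψ| * m + B * δ := by
    have h1 : ‖v‖ ≤ ‖v + (ω * Real.sin ψ) • φ‖ + ‖(ω * Real.sin ψ) • φ‖ := by
      calc ‖v‖ = ‖(v + (ω * Real.sin ψ) • φ) - (ω * Real.sin ψ) • φ‖ := by congr 1; abel
        _ ≤ _ := norm_sub_le _ _
    rw [n1] at h1
    linarith
  have q1 : |Real.cos ψ| * m - B * δ ≤ ‖R q‖ := by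
    have h1 : ‖(ω ^ 2 * Real.cos ψ) • R φ‖ ≤ ‖R q‖ + ‖R q - (ω ^ 2 * Real.cos ψ) • R φ‖ := by
      calc ‖(ω ^ 2 * Real.cos ψ) • R φ‖ = ‖R q - (R q - (ω ^ 2 * Real.cos ψ) • R φ)‖ := by
            congr 1; abel
        _ ≤ _ := norm_sub_le _ _
    rw [n2] at h1
    linarith
  have q2 : ‖R q‖ ≤ |Real.cos ψ| * m + B * δ := by
    have h1 : ‖R q‖ ≤ ‖R q - (ω ^ 2 * Real.cos ψ) • R φ‖ + ‖(ω ^ 2 * Real.cos ψ) • R φ‖ := by
      calc ‖R q‖ = ‖(R q - (ω ^ 2 * Real.cos ψ) • R φ) + (ω ^ 2 * Real.cos ψ) • R φ‖ := by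
            congr 1; abel
        _ ≤ _ := norm_add_le _ _
    rw [n2] at h1
    linarith
  have hBδ0 : 0 ≤ B * δ := by positivity
  have s1 : |Real.sin ψ| * m ≤ m := by nlinarith
  have c1 : |Real.cos ψ| * m ≤ m := by nlinarith
  have hsc : |Real.sin ψ| ^ 2 + |Real.cos ψ| ^ 2 = 1 := by
    rw [sq_abs, sq_abs]; exact Real.sin_sq_add_cos_sq ψ
  constructor
  · have h1 := sq_lower (mul_nonneg (abs_nonneg _) hm0.le) s1 (norm_nonneg v) hBδ0 v1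
    have h2 := sq_lower (mul_nonneg (abs_nonneg _) hm0.le) c1 (norm_nonneg (R q)) hBδ0 q1
    have h3 : (|Real.sin ψ| * m) ^ 2 + (|Real.cos ψ| * m) ^ 2 = m ^ 2 := by
      rw [mul_pow, mul_pow, ← add_mul, hsc, one_mul]
    have h4 : 2 * m * (B * δ) ≤ m ^ 2 / 4 := by nlinarith
    linarith
  · have h1 : ‖v‖ ≤ 2 * m := by linarith
    have h2 : ‖R q‖ ≤ 2 * m := by linarith
    exact add_le_add (pow_le_pow_left₀ (norm_nonneg _) h1 2)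
      (pow_le_pow_left₀ (norm_nonneg _) h2 2)

end

end Pool.Agent.BE01.H87
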