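import Pool.Agent.BE01.Stmts

/-!
BE01, module GSZ: the size of the derivative of the power map along the approximate solution.
-/

namespace Pool.Agent.BE01.H87

open Set Filter Topology
open scoped InnerProductSpace

noncomputable section

section

variable {X : Type} [NormedCommRing X]

/-- the power map is Lipschitz and bounded on balls -/
theorem pow_lip (R : ℝ) (hR : 0 ≤ R) (k : ℕ) : ∃ L M : ℝ, 0 ≤ L ∧ 0 ≤ M ∧
    ∀ a b : X, ‖a‖ ≤ R → ‖b‖ ≤ R → ‖a ^ k - b ^ k‖ ≤ L * ‖a - b‖ ∧ ‖a ^ k‖ ≤ M := by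
  induction k with
  | zero =>
    refine ⟨0, ‖(1 : X)‖, le_refl _, norm_nonneg _, fun a b _ _ => ⟨?_, ?_⟩⟩
    · simp
    · simp
  | succ k ih =>
    obtain ⟨L, M, hL, hM, h⟩ := ih
    refine ⟨M + L * R, M * R, by positivity, by positivity, fun a b ha hb => ⟨?_, ?_⟩⟩
    · have e : a ^ (k + 1) - b ^ (k + 1) = a ^ k * (a - b) + (a ^ k - b ^ k) * b := by ring
      rw [e]
      calc ‖a ^ k * (a - b) + (a ^ k - b ^ k) * b‖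
          ≤ ‖a ^ k * (a - b)‖ + ‖(a ^ k - b ^ k) * b‖ := norm_add_le _ _
        _ ≤ ‖a ^ k‖ * ‖a - b‖ + ‖a ^ k - b ^ k‖ * ‖b‖ :=
            add_le_add (norm_mul_le _ _) (norm_mul_le _ _)
        _ ≤ M * ‖a - b‖ + (L * ‖a - b‖) * R := by
            obtain ⟨h1, h2⟩ := h a b ha hb
            gcongr
        _ = (M + L * R) * ‖a - b‖ := by ring
    · rw [pow_succ]
      calc ‖a ^ k * a‖ ≤ ‖a ^ k‖ * ‖a‖ := norm_mul_le _ _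
        _ ≤ M * R := by
            obtain ⟨h1, h2⟩ := h a b ha hb
            gcongr

/-- products of powers are Lipschitz on balls -/
theorem mul_lip (R : ℝ) (hR : 0 ≤ R) (k j : ℕ) : ∃ L : ℝ, 0 ≤ L ∧
    ∀ a b c d : X, ‖a‖ ≤ R → ‖b‖ ≤ R → ‖c‖ ≤ R → ‖d‖ ≤ R →
      ‖a ^ k * c ^ j - b ^ k * d ^ j‖ ≤ L * (‖a - b‖ + ‖c - d‖) := by
  obtain ⟨L, M, hL, hM, h⟩ := pow_lip (X := X) R hR k
  obtain ⟨L', M', hL', hM', h'⟩ := pow_lip (X := X) R hR j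
  refine ⟨M * L' + L * M', by positivity, fun a b c d ha hb hc hd => ?_⟩
  obtain ⟨h1, h2⟩ := h a b ha hb
  obtain ⟨h3, _⟩ := h' c d hc hd
  have h4 := (h' d c hd hc).2
  have e : a ^ k * c ^ j - b ^ k * d ^ j = a ^ k * (c ^ j - d ^ j) + (a ^ k - b ^ k) * d ^ j := by
    ring
  rw [e]
  calc ‖a ^ k * (c ^ j - d ^ j) + (a ^ k - b ^ k) * d ^ j‖
      ≤ ‖a ^ k * (c ^ j - d ^ j)‖ + ‖(a ^ k - b ^ k) * d ^ j‖ := norm_add_le _ _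
    _ ≤ ‖a ^ k‖ * ‖c ^ j - d ^ j‖ + ‖a ^ k - b ^ k‖ * ‖d ^ j‖ :=
        add_le_add (norm_mul_le _ _) (norm_mul_le _ _)
    _ ≤ M * (L' * ‖c - d‖) + (L * ‖a - b‖) * M' := by gcongr
    _ ≤ (M * L' + L * M') * (‖a - b‖ + ‖c - d‖) := by
        have h5 : 0 ≤ M * L' * ‖a - b‖ := by positivity
        have h6 : 0 ≤ L * M' * ‖c - d‖ := by positivity
        nlinarith

variable [NormedAlgebra ℝ X]

/-- the three terms of `gsz` at the leading order -/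
theorem main_bound (q : ℕ) (N ω s c : ℝ) (hN : N = 2 * q + 3) (hω : 0 < ω)
    (hsc : s ^ 2 + c ^ 2 = 1) (x : X) :
    ‖N • (-(ω * s) • x) ^ (2 * q + 2)‖ +
    2 * ‖(N * (N - 1)) • ((-(ω * s) • x) ^ (2 * q + 1) * (-(ω ^ 2 * c) • x) ^ 1)‖ +
    ‖(N * (N - 1)) • ((-(ω * s) • x) ^ (2 * q + 1) * ((ω ^ 3 * s) • x) ^ 1) +
      (N * (N - 1) * (N - 2)) • ((-(ω * s) • x) ^ (2 * q) * (-(ω ^ 2 * c) • x) ^ 2)‖ ≤
    N * (1 + (N - 1) * ω) ^ 2 * (ω * ‖x‖) ^ (2 * q + 2) := by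
  have hq : (0 : ℝ) ≤ q := Nat.cast_nonneg q
  have hN0 : 0 < N := by rw [hN]; positivity
  have hN1 : 0 < N - 1 := by rw [hN]; linarith
  have hN2 : 1 ≤ N - 2 := by rw [hN]; linarith
  have hs : |s| ≤ 1 := abs_le_one_iff_mul_self_le_one.2 (by nlinarith [sq_nonneg c])
  have hc : |c| ≤ 1 := abs_le_one_iff_mul_self_le_one.2 (by nlinarith [sq_nonneg s])
  have hx : ‖x ^ (2 * q + 2)‖ ≤ ‖x‖ ^ (2 * q + 2) := norm_pow_le' x (by omega)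
  have e0 : N • (-(ω * s) • x) ^ (2 * q + 2) =
      (N * (ω * s) ^ (2 * q + 2)) • x ^ (2 * q + 2) := by
    rw [smul_pow, smul_smul]
    congr 1
    have : (-(ω * s)) ^ (2 * q + 2) = (ω * s) ^ (2 * q + 2) := Even.neg_pow ⟨q + 1, by ring⟩ _
    rw [this]
  have e1 : (N * (N - 1)) • ((-(ω * s) • x) ^ (2 * q + 1) * (-(ω ^ 2 * c) • x) ^ 1) =
      (N * (N - 1) * (ω * s) ^ (2 * q + 1) * (ω ^ 2 * c)) • x ^ (2 * q + 2) := by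
    have : (-(ω * s)) ^ (2 * q + 1) = -(ω * s) ^ (2 * q + 1) := Odd.neg_pow ⟨q, rfl⟩ _
    rw [smul_pow, this, pow_one, smul_mul_smul_comm, smul_smul, ← pow_succ]
    congr 1
    ring
  have e2 : (N * (N - 1)) • ((-(ω * s) • x) ^ (2 * q + 1) * ((ω ^ 3 * s) • x) ^ 1) +
      (N * (N - 1) * (N - 2)) • ((-(ω * s) • x) ^ (2 * q) * (-(ω ^ 2 * c) • x) ^ 2) =
      (N * (N - 1) * ω ^ (2 * q + 4) * s ^ (2 * q) * ((N - 2) * c ^ 2 - s ^ 2)) •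
        x ^ (2 * q + 2) := by
    have h1 : (-(ω * s)) ^ (2 * q + 1) = -(ω * s) ^ (2 * q + 1) := Odd.neg_pow ⟨q, rfl⟩ _
    have h2 : (-(ω * s)) ^ (2 * q) = (ω * s) ^ (2 * q) := Even.neg_pow ⟨q, by ring⟩ _
    rw [smul_pow, h1, pow_one, smul_mul_smul_comm, smul_smul, ← pow_succ, smul_pow, h2, smul_pow,
      smul_mul_smul_comm, smul_smul, ← pow_add, ← add_smul]
    congr 1
    ring
  rw [e0, e1, e2, norm_smul, norm_smul, norm_smul, Real.norm_eq_abs, Real.norm_eq_abs,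
    Real.norm_eq_abs]
  have a0 : |N * (ω * s) ^ (2 * q + 2)| ≤ N * ω ^ (2 * q + 2) := by
    rw [abs_mul, abs_of_pos hN0, abs_pow, abs_mul, abs_of_pos hω]
    have : (ω * |s|) ^ (2 * q + 2) ≤ ω ^ (2 * q + 2) := by
      apply pow_le_pow_left₀ (by positivity)
      nlinarith
    gcongr
  have a1 : |N * (N - 1) * (ω * s) ^ (2 * q + 1) * (ω ^ 2 * c)| ≤
      N * (N - 1) * ω * ω ^ (2 * q + 2) := by
    rw [abs_mul, abs_mul, abs_mul, abs_of_pos hN0, abs_of_pos hN1, abs_pow, abs_mul,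
      abs_of_pos hω, abs_mul, abs_of_pos (show 0 < ω ^ 2 by positivity)]
    have h1 : (ω * |s|) ^ (2 * q + 1) ≤ ω ^ (2 * q + 1) := by
      apply pow_le_pow_left₀ (by positivity)
      nlinarith
    have h2 : ω ^ 2 * |c| ≤ ω ^ 2 := by nlinarith [sq_nonneg ω]
    calc N * (N - 1) * (ω * |s|) ^ (2 * q + 1) * (ω ^ 2 * |c|) ≤
        N * (N - 1) * ω ^ (2 * q + 1) * ω ^ 2 := by gcongr
      _ = N * (N - 1) * ω * ω ^ (2 * q + 2) := by ring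
  have a2 : |N * (N - 1) * ω ^ (2 * q + 4) * s ^ (2 * q) * ((N - 2) * c ^ 2 - s ^ 2)| ≤
      N * (N - 1) * (N - 2) * ω ^ 2 * ω ^ (2 * q + 2) := by
    rw [abs_mul, abs_mul, abs_mul, abs_mul, abs_of_pos hN0, abs_of_pos hN1,
      abs_of_pos (show 0 < ω ^ (2 * q + 4) by positivity), abs_pow]
    have h1 : |s| ^ (2 * q) ≤ 1 := pow_le_one₀ (abs_nonneg _) hs
    have h2 : |(N - 2) * c ^ 2 - s ^ 2| ≤ N - 2 := by
      rw [abs_le]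
      constructor
      · nlinarith [sq_nonneg c, sq_nonneg s]
      · nlinarith [sq_nonneg c, sq_nonneg s]
    calc N * (N - 1) * ω ^ (2 * q + 4) * |s| ^ (2 * q) * |(N - 2) * c ^ 2 - s ^ 2| ≤
        N * (N - 1) * ω ^ (2 * q + 4) * 1 * (N - 2) := by gcongr
      _ = N * (N - 1) * (N - 2) * ω ^ 2 * ω ^ (2 * q + 2) := by ring
  have b0 : 0 ≤ ‖x ^ (2 * q + 2)‖ := norm_nonneg _
  calc |N * (ω * s) ^ (2 * q + 2)| * ‖x ^ (2 * q + 2)‖ +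
      2 * (|N * (N - 1) * (ω * s) ^ (2 * q + 1) * (ω ^ 2 * c)| * ‖x ^ (2 * q + 2)‖) +
      |N * (N - 1) * ω ^ (2 * q + 4) * s ^ (2 * q) * ((N - 2) * c ^ 2 - s ^ 2)| *
        ‖x ^ (2 * q + 2)‖ ≤
      (N * ω ^ (2 * q + 2)) * ‖x‖ ^ (2 * q + 2) +
      2 * ((N * (N - 1) * ω * ω ^ (2 * q + 2)) * ‖x‖ ^ (2 * q + 2)) +
      (N * (N - 1) * (N - 2) * ω ^ 2 * ω ^ (2 * q + 2)) * ‖x‖ ^ (2 * q + 2) := by gcongr
    _ = N * (1 + 2 * (N - 1) * ω + (N - 1) * (N - 2) * ω ^ 2) *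
        (ω ^ (2 * q + 2) * ‖x‖ ^ (2 * q + 2)) := by ring
    _ ≤ N * (1 + (N - 1) * ω) ^ 2 * (ω ^ (2 * q + 2) * ‖x‖ ^ (2 * q + 2)) := by
        have h1 : 1 + 2 * (N - 1) * ω + (N - 1) * (N - 2) * ω ^ 2 ≤ (1 + (N - 1) * ω) ^ 2 := by
          nlinarith [mul_pos hN1 (sq_pos_of_pos hω)]
        gcongr
    _ = N * (1 + (N - 1) * ω) ^ 2 * (ω * ‖x‖) ^ (2 * q + 2) := by rw [mul_pow]

end

/-- GSZ -/
theorem gsz_ : GszStmt := by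
  intro X _ _ p ω C x hp hω
  obtain ⟨q, rfl⟩ : ∃ q, p = q + 1 := ⟨p - 1, by omega⟩
  have hR : 0 ≤ (ω + ω ^ 2 + ω ^ 3) * ‖x‖ + |C| := by positivity
  obtain ⟨R, hRdef⟩ : ∃ R, R = (ω + ω ^ 2 + ω ^ 3) * ‖x‖ + |C| := ⟨_, rfl⟩
  rw [← hRdef] at hR
  obtain ⟨L0, hL0, h0⟩ := mul_lip (X := X) R hR (2 * q + 2) 0
  obtain ⟨L1, hL1, h1⟩ := mul_lip (X := X) R hR (2 * q + 1) 1
  obtain ⟨L2, hL2, h2⟩ := mul_lip (X := X) R hR (2 * q) 2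
  obtain ⟨N, hN⟩ : ∃ N : ℝ, N = 2 * q + 3 := ⟨_, rfl⟩
  have hq : (0 : ℝ) ≤ q := Nat.cast_nonneg q
  have hN0 : 0 < N := by rw [hN]; positivity
  have hN1 : 0 < N - 1 := by rw [hN]; linarith
  have hN2 : 0 < N - 2 := by rw [hN]; linarith
  have hg : ∀ w0 w1 w2 : X, gsz (2 * (q + 1) + 1) w0 w1 w2 = ‖N • w0 ^ (2 * q + 2)‖ +
      2 * ‖(N * (N - 1)) • (w0 ^ (2 * q + 1) * w1 ^ 1)‖ +
      ‖(N * (N - 1)) • (w0 ^ (2 * q + 1) * w2 ^ 1) +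
        (N * (N - 1) * (N - 2)) • (w0 ^ (2 * q) * w1 ^ 2)‖ := by
    intro w0 w1 w2
    unfold gsz
    have c0 : ((2 * (q + 1) + 1 : ℕ) : ℝ) = N := by rw [hN]; push_cast; ring
    have c1 : 2 * (q + 1) + 1 - 1 = 2 * q + 2 := by omega
    have c2 : 2 * (q + 1) + 1 - 2 = 2 * q + 1 := by omega
    have c3 : 2 * (q + 1) + 1 - 3 = 2 * q := by omega
    rw [c0, c1, c2, c3, pow_one, pow_one]
  refine ⟨(N * L0 + 2 * (N * (N - 1) * (2 * L1)) + (N * (N - 1) * (2 * L1) +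
    N * (N - 1) * (N - 2) * (2 * L2))) * |C|, ?_⟩
  intro ψ δ v0 v1 v2 hδ0 hδ1 k0 k1 k2
  have hCδ : C * δ ≤ |C| * δ := mul_le_mul_of_nonneg_right (le_abs_self C) hδ0
  have hCδ1 : |C| * δ ≤ |C| := by nlinarith [abs_nonneg C]
  have hCδ0 : 0 ≤ |C| * δ := by positivity
  have hsc : Real.sin ψ ^ 2 + Real.cos ψ ^ 2 = 1 := Real.sin_sq_add_cos_sq ψ
  have hs : |Real.sin ψ| ≤ 1 := Real.abs_sin_le_one ψ
  have hc : |Real.cos ψ| ≤ 1 := Real.abs_cos_le_one ψ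
  obtain ⟨u0, hu0⟩ : ∃ u, u = -(ω * Real.sin ψ) • x := ⟨_, rfl⟩
  obtain ⟨u1, hu1⟩ : ∃ u, u = -(ω ^ 2 * Real.cos ψ) • x := ⟨_, rfl⟩
  obtain ⟨u2, hu2⟩ : ∃ u, u = (ω ^ 3 * Real.sin ψ) • x := ⟨_, rfl⟩
  have d0 : ‖v0 - u0‖ ≤ |C| * δ := by
    have : v0 - u0 = v0 + (ω * Real.sin ψ) • x := by rw [hu0, neg_smul]; abel
    rw [this]; exact k0.trans hCδ
  have d1 : ‖v1 - u1‖ ≤ |C| * δ := by
    have : v1 - u1 = v1 + (ω ^ 2 * Real.cos ψ) • x := by rw [hu1, neg_smul]; abel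
    rw [this]; exact k1.trans hCδ
  have d2 : ‖v2 - u2‖ ≤ |C| * δ := by rw [hu2]; exact k2.trans hCδ
  have hx := norm_nonneg x
  have n0 : ‖u0‖ ≤ ω * ‖x‖ := by
    rw [hu0, norm_smul, Real.norm_eq_abs, abs_neg, abs_mul, abs_of_pos hω]
    have : ω * |Real.sin ψ| ≤ ω := by nlinarith
    exact mul_le_mul_of_nonneg_right this hx
  have n1 : ‖u1‖ ≤ ω ^ 2 * ‖x‖ := by
    rw [hu1, norm_smul, Real.norm_eq_abs, abs_neg, abs_mul,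
      abs_of_pos (show 0 < ω ^ 2 by positivity)]
    have : ω ^ 2 * |Real.cos ψ| ≤ ω ^ 2 := by nlinarith [sq_nonneg ω]
    exact mul_le_mul_of_nonneg_right this hx
  have n2 : ‖u2‖ ≤ ω ^ 3 * ‖x‖ := by
    rw [hu2, norm_smul, Real.norm_eq_abs, abs_mul,
      abs_of_pos (show 0 < ω ^ 3 by positivity)]
    have h3 : 0 < ω ^ 3 := by positivity
    have : ω ^ 3 * |Real.sin ψ| ≤ ω ^ 3 := by nlinarith
    exact mul_le_mul_of_nonneg_right this hx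
  have p1 : 0 ≤ ω * ‖x‖ := by positivity
  have p2 : 0 ≤ ω ^ 2 * ‖x‖ := by positivity
  have p3 : 0 ≤ ω ^ 3 * ‖x‖ := by positivity
  have hC := abs_nonneg C
  have r0 : ‖u0‖ ≤ R := by rw [hRdef]; nlinarith
  have r1 : ‖u1‖ ≤ R := by rw [hRdef]; nlinarith
  have r2 : ‖u2‖ ≤ R := by rw [hRdef]; nlinarith
  have tri : ∀ v u : X, ‖v‖ ≤ ‖u‖ + ‖v - u‖ := by
    intro v u
    calc ‖v‖ = ‖u + (v - u)‖ := by congr 1; abel
      _ ≤ _ := norm_add_le _ _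
  have s0 : ‖v0‖ ≤ R := by have := tri v0 u0; rw [hRdef]; nlinarith
  have s1 : ‖v1‖ ≤ R := by have := tri v1 u1; rw [hRdef]; nlinarith
  have s2 : ‖v2‖ ≤ R := by have := tri v2 u2; rw [hRdef]; nlinarith
  have hm := main_bound q N ω (Real.sin ψ) (Real.cos ψ) hN hω hsc x
  rw [← hu0, ← hu1, ← hu2] at hm
  rw [hg]
  have t0 : ‖N • v0 ^ (2 * q + 2)‖ ≤ ‖N • u0 ^ (2 * q + 2)‖ + N * L0 * (|C| * δ) := by
    refine (tri _ (N • u0 ^ (2 * q + 2))).trans ?_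
    have := h0 v0 u0 0 0 s0 r0 (by rw [norm_zero]; exact hR) (by rw [norm_zero]; exact hR)
    rw [pow_zero, mul_one, mul_one, sub_self, norm_zero, add_zero] at this
    have h3 : L0 * ‖v0 - u0‖ ≤ L0 * (|C| * δ) := mul_le_mul_of_nonneg_left d0 hL0
    have h4 : N * ‖v0 ^ (2 * q + 2) - u0 ^ (2 * q + 2)‖ ≤ N * (L0 * (|C| * δ)) :=
      mul_le_mul_of_nonneg_left (this.trans h3) hN0.le
    have h5 : ‖N • v0 ^ (2 * q + 2) - N • u0 ^ (2 * q + 2)‖ =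
        N * ‖v0 ^ (2 * q + 2) - u0 ^ (2 * q + 2)‖ := by
      rw [← smul_sub, norm_smul, Real.norm_eq_abs, abs_of_pos hN0]
    linarith
  have t1 : ‖(N * (N - 1)) • (v0 ^ (2 * q + 1) * v1 ^ 1)‖ ≤
      ‖(N * (N - 1)) • (u0 ^ (2 * q + 1) * u1 ^ 1)‖ + N * (N - 1) * (2 * L1) * (|C| * δ) := by
    refine (tri _ ((N * (N - 1)) • (u0 ^ (2 * q + 1) * u1 ^ 1))).trans ?_
    have := h1 v0 u0 v1 u1 s0 r0 s1 r1
    have h3 : L1 * (‖v0 - u0‖ + ‖v1 - u1‖) ≤ L1 * (|C| * δ + |C| * δ) :=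
      mul_le_mul_of_nonneg_left (add_le_add d0 d1) hL1
    have h4 := mul_le_mul_of_nonneg_left (this.trans h3) (mul_pos hN0 hN1).le
    have h5 : ‖(N * (N - 1)) • (v0 ^ (2 * q + 1) * v1 ^ 1) -
        (N * (N - 1)) • (u0 ^ (2 * q + 1) * u1 ^ 1)‖ =
        N * (N - 1) * ‖v0 ^ (2 * q + 1) * v1 ^ 1 - u0 ^ (2 * q + 1) * u1 ^ 1‖ := by
      rw [← smul_sub, norm_smul, Real.norm_eq_abs, abs_of_pos (mul_pos hN0 hN1)]
    linarith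
  have t2 : ‖(N * (N - 1)) • (v0 ^ (2 * q + 1) * v2 ^ 1) +
        (N * (N - 1) * (N - 2)) • (v0 ^ (2 * q) * v1 ^ 2)‖ ≤
      ‖(N * (N - 1)) • (u0 ^ (2 * q + 1) * u2 ^ 1) +
        (N * (N - 1) * (N - 2)) • (u0 ^ (2 * q) * u1 ^ 2)‖ +
      (N * (N - 1) * (2 * L1) + N * (N - 1) * (N - 2) * (2 * L2)) * (|C| * δ) := by
    refine (tri _ ((N * (N - 1)) • (u0 ^ (2 * q + 1) * u2 ^ 1) +
        (N * (N - 1) * (N - 2)) • (u0 ^ (2 * q) * u1 ^ 2))).trans ?_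
    have g1 := h1 v0 u0 v2 u2 s0 r0 s2 r2
    have g2 := h2 v0 u0 v1 u1 s0 r0 s1 r1
    have e : (N * (N - 1)) • (v0 ^ (2 * q + 1) * v2 ^ 1) +
        (N * (N - 1) * (N - 2)) • (v0 ^ (2 * q) * v1 ^ 2) -
        ((N * (N - 1)) • (u0 ^ (2 * q + 1) * u2 ^ 1) +
        (N * (N - 1) * (N - 2)) • (u0 ^ (2 * q) * u1 ^ 2)) =
        (N * (N - 1)) • (v0 ^ (2 * q + 1) * v2 ^ 1 - u0 ^ (2 * q + 1) * u2 ^ 1) +
        (N * (N - 1) * (N - 2)) • (v0 ^ (2 * q) * v1 ^ 2 - u0 ^ (2 * q) * u1 ^ 2) := by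
      rw [smul_sub, smul_sub]; abel
    rw [e]
    have f1 : ‖(N * (N - 1)) • (v0 ^ (2 * q + 1) * v2 ^ 1 - u0 ^ (2 * q + 1) * u2 ^ 1)‖ ≤
        N * (N - 1) * (L1 * (|C| * δ + |C| * δ)) := by
      rw [norm_smul, Real.norm_eq_abs, abs_of_pos (mul_pos hN0 hN1)]
      exact mul_le_mul_of_nonneg_left (g1.trans
        (mul_le_mul_of_nonneg_left (add_le_add d0 d2) hL1)) (mul_pos hN0 hN1).le
    have f2 : ‖(N * (N - 1) * (N - 2)) • (v0 ^ (2 * q) * v1 ^ 2 - u0 ^ (2 * q) * u1 ^ 2)‖ ≤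
        N * (N - 1) * (N - 2) * (L2 * (|C| * δ + |C| * δ)) := by
      rw [norm_smul, Real.norm_eq_abs, abs_of_pos (mul_pos (mul_pos hN0 hN1) hN2)]
      exact mul_le_mul_of_nonneg_left (g2.trans
        (mul_le_mul_of_nonneg_left (add_le_add d0 d1) hL2))
        (mul_pos (mul_pos hN0 hN1) hN2).le
    have := norm_add_le ((N * (N - 1)) • (v0 ^ (2 * q + 1) * v2 ^ 1 - u0 ^ (2 * q + 1) * u2 ^ 1))
      ((N * (N - 1) * (N - 2)) • (v0 ^ (2 * q) * v1 ^ 2 - u0 ^ (2 * q) * u1 ^ 2))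
    linarith
  have hfin : N * (1 + (N - 1) * ω) ^ 2 * (ω * ‖x‖) ^ (2 * q + 2) =
      (2 * ((q + 1 : ℕ) : ℝ) + 1) * (1 + 2 * ((q + 1 : ℕ) : ℝ) * ω) ^ 2 *
        (ω * ‖x‖) ^ (2 * (q + 1)) := by
    have e1 : N = 2 * ((q + 1 : ℕ) : ℝ) + 1 := by rw [hN]; push_cast; ring
    have e2 : N - 1 = 2 * ((q + 1 : ℕ) : ℝ) := by rw [hN]; push_cast; ring
    have e3 : 2 * q + 2 = 2 * (q + 1) := by ring
    rw [e2, e1, e3]
  rw [← hfin]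
  have t1' := mul_le_mul_of_nonneg_left t1 (show (0 : ℝ) ≤ 2 by norm_num)
  nlinarith

end

end Pool.Agent.BE01.H87
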