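import Pool.Agent.BE01.StmtsS

/-!
BE01, module NRS: no resonance for large frequencies.
-/

namespace Pool.Agent.BE01.H87

open Set Filter Topology

noncomputable section

/-- NRS -/
theorem nrs : NrsStmt := by
  intro L v C M hL hv hC
  have hv0 : 0 < |v| := abs_pos.2 hv
  have hM : (0 : ℝ) ≤ M := Nat.cast_nonneg M
  refine ⟨1 + M * |v| + 2 * (M + 1) * C + 2 * (M + 1) * C / |v|, ?_, ?_⟩
  · have h1 : 0 ≤ M * |v| := by positivity
    have h2 : 0 ≤ 2 * (M + 1) * C := by positivity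
    have h3 : 0 ≤ 2 * (M + 1) * C / |v| := by positivity
    linarith
  rintro ω n hω hn hnM ⟨m, hm⟩ ⟨m', hm'⟩
  have h1 : 0 ≤ M * |v| := by positivity
  have h2 : 0 ≤ 2 * (M + 1) * C := by positivity
  have h3 : 0 ≤ 2 * (M + 1) * C / |v| := by positivity
  have hω1 : 1 ≤ ω := by linarith
  have hω0 : 0 < ω := by linarith
  have hn2 : (2 : ℝ) ≤ n := by exact_mod_cast hn
  have hnM' : (n : ℝ) ≤ M := by exact_mod_cast hnM
  have hn0 : (0 : ℝ) < n := by linarith
  obtain ⟨k, hk⟩ : ∃ k : ℤ, k = m' - n * m := ⟨_, rfl⟩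
  obtain ⟨a, ha⟩ : ∃ a : ℝ, a = ((n : ℝ) - 1 / n) * (v / (2 * ω)) := ⟨_, rfl⟩
  -- the combination
  have e1 : ((n * ω) * L - v / (2 * (n * ω)) - m' * Real.pi) -
      n * (ω * L - v / (2 * ω) - m * Real.pi) = a - k * Real.pi := by
    rw [ha, hk]
    push_cast
    field_simp
    ring
  have b1 : |a - k * Real.pi| ≤ (M + 1) * C / ω ^ 2 := by
    rw [← e1]
    refine (abs_sub _ _).trans ?_
    have c1 : |(n * ω) * L - v / (2 * (n * ω)) - m' * Real.pi| ≤ C / ω ^ 2 := by
      refine hm'.trans ?_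
      apply div_le_div_of_nonneg_left hC.le (by positivity)
      apply pow_le_pow_left₀ hω0.le
      nlinarith
    have c2 : |n * (ω * L - v / (2 * ω) - m * Real.pi)| ≤ M * (C / ω ^ 2) := by
      rw [abs_mul, abs_of_pos hn0]
      exact mul_le_mul hnM' hm (abs_nonneg _) hM
    calc _ ≤ C / ω ^ 2 + M * (C / ω ^ 2) := add_le_add c1 c2
      _ = (M + 1) * C / ω ^ 2 := by ring
  have hfac1 : 1 ≤ (n : ℝ) - 1 / n := by
    have : 1 / (n : ℝ) ≤ 1 := by
      rw [div_le_one hn0]; linarith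
    linarith
  have hfac2 : (n : ℝ) - 1 / n ≤ M := by
    have : 0 ≤ 1 / (n : ℝ) := by positivity
    linarith
  have habs : |a| = ((n : ℝ) - 1 / n) * (|v| / (2 * ω)) := by
    rw [ha, abs_mul, abs_of_pos (by linarith : (0 : ℝ) < (n : ℝ) - 1 / n), abs_div,
      abs_of_pos (by positivity : (0 : ℝ) < 2 * ω)]
  -- `k = 0`
  have hk0 : k = 0 := by
    by_contra hk0
    have c1 : (1 : ℝ) ≤ |(k : ℝ)| := by
      have : (1 : ℤ) ≤ |k| := Int.one_le_abs hk0
      exact_mod_cast this
    have c2 : |k * Real.pi| ≤ |a| + |a - k * Real.pi| := by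
      have : (k : ℝ) * Real.pi = a - (a - k * Real.pi) := by ring
      calc |k * Real.pi| = |a - (a - k * Real.pi)| := by rw [← this]
        _ ≤ _ := abs_sub _ _
    have c3 : 3 ≤ |k * Real.pi| := by
      rw [abs_mul, abs_of_pos Real.pi_pos]
      nlinarith [Real.pi_gt_three, Real.pi_pos]
    have c4 : |a| ≤ 1 := by
      rw [habs]
      have : |v| / (2 * ω) ≤ |v| / ω := by
        apply div_le_div_of_nonneg_left hv0.le hω0
        linarith
      calc ((n : ℝ) - 1 / n) * (|v| / (2 * ω)) ≤ M * (|v| / ω) := by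
            apply mul_le_mul hfac2 this (by positivity) hM
        _ = (M * |v|) / ω := by ring
        _ ≤ 1 := by
            rw [div_le_one hω0]; linarith
    have c5 : (M + 1) * C / ω ^ 2 ≤ 1 := by
      rw [div_le_one (by positivity)]
      have : ω ≤ ω ^ 2 := by nlinarith
      have : (M + 1) * C ≤ 2 * (M + 1) * C := by nlinarith [mul_nonneg hM hC.le]
      linarith
    linarith
  rw [hk0] at b1
  simp only [Int.cast_zero, zero_mul, sub_zero] at b1
  rw [habs] at b1
  have c1 : |v| / (2 * ω) ≤ (M + 1) * C / ω ^ 2 := by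
    refine le_trans ?_ b1
    have : 0 ≤ |v| / (2 * ω) := by positivity
    nlinarith
  have c2 : |v| * ω ≤ 2 * (M + 1) * C := by
    rw [div_le_div_iff₀ (by positivity) (by positivity)] at c1
    have c3 : ω * (|v| * ω) ≤ ω * (2 * (M + 1) * C) := by nlinarith
    exact le_of_mul_le_mul_left c3 hω0
  have c3 : 2 * (M + 1) * C / |v| < ω := by linarith
  rw [div_lt_iff₀ hv0] at c3
  linarith

end

end Pool.Agent.BE01.H87
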