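import Pool.Agent.BE01.StmtsS
import Pool.Agent.BE01.StmtsC

/-!
BE01, module SPF: the choice of the eigenfunction.
-/

namespace Pool.Agent.BE01.H87

open Set Filter Topology MeasureTheory
open scoped InnerProductSpace ENNReal

noncomputable section

theorem cp_pos' (p : ℕ) : 0 < cp p := by
  unfold cp
  refine mul_pos (by positivity) ?_
  refine intervalIntegral.integral_pos (by positivity) (by fun_prop) ?_ ?_
  · intro x _
    have : Even (2 * p + 2) := ⟨p + 1, by ring⟩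
    exact this.pow_nonneg _
  · refine ⟨Real.pi / 2, ⟨by positivity, by linarith [Real.pi_pos]⟩, ?_⟩
    rw [Real.sin_pi_div_two, one_pow]
    exact one_pos

/-- the inner product in `L²` as an integral -/
theorem inner_L2 {s : Type} [MeasurableSpace s] {μ : Measure s} (f g : Lp ℝ 2 μ) {F G : s → ℝ}
    (hf : f =ᵐ[μ] F) (hg : g =ᵐ[μ] G) : ⟪f, g⟫_ℝ = ∫ a, F a * G a ∂μ := by
  rw [L2.inner_def]
  apply integral_congr_ae
  filter_upwards [hf, hg] with a ha hb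
  rw [ha, hb]
  rw [RCLike.inner_apply, conj_trivial, mul_comm]

/-- SPF -/
theorem spf (hspb : SpbStmt) (hsps : SpsStmt) (hpwm : PwmStmt) (hnrs : NrsStmt)
    (hinf : InfStmt) (hifd : IfdStmt) (hfre : FreStmt) (hpol : PolStmt) : SpfStmt := by
  intro d r0 r1 h A W D p hd hd3 hr0 hr1 hp he hopr hcomp
  have hd1 : 1 ≤ d := by omega
  obtain ⟨-, hfin, hopen, -, -⟩ := hpol d r0 r1 h hd1 hr0 hr1
  haveI := hfin
  have hd2 : (2 : ℝ) ≤ d := by exact_mod_cast hd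
  -- the shift
  obtain ⟨v, hv⟩ : ∃ v, v = (((d : ℝ) - 1) * (d - 3) / 4) * (1 / r0 - 1 / r1) := ⟨_, rfl⟩
  have hv0 : v ≠ 0 := by
    rw [hv]
    refine mul_ne_zero (div_ne_zero (mul_ne_zero ?_ ?_) (by norm_num)) ?_
    · linarith
    · intro h0
      apply hd3
      have : (d : ℝ) = 3 := by linarith
      exact_mod_cast this
    · have : 1 / r1 < 1 / r0 := one_div_lt_one_div_of_lt hr0 hr1
      linarith
  obtain ⟨B, hB, ω0, hω0, hspb'⟩ := hspb d r0 r1 h D W.SX hd1 hr0 hr1 hopr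
  obtain ⟨V, hV⟩ : ∃ V, V = (nu d h).real univ := ⟨_, rfl⟩
  have hV0 : 0 < V := by
    rw [hV]
    have hne : (univ : Set (Ic r0 r1)).Nonempty := ⟨⟨r0, left_mem_Icc.2 h⟩, trivial⟩
    have h1 := hopen univ isOpen_univ hne
    exact ENNReal.toReal_pos h1.ne' (measure_ne_top _ _)
  have hcp := cp_pos' p
  have hp0 : (0 : ℝ) < p := by exact_mod_cast hp
  have hpc : 0 < (p : ℝ) * cp p := mul_pos hp0 hcp
  obtain ⟨K, hK⟩ : ∃ K : ℕ, K = ⌊(2 * (p : ℝ) + 1) * B ^ p * V ^ p / (p * cp p)⌋₊ + 1 := ⟨_, rfl⟩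
  have hK1 : (2 * (p : ℝ) + 1) * B ^ p * V ^ p < K * (p * cp p) := by
    rw [← div_lt_iff₀ hpc, hK]
    push_cast
    exact Nat.lt_floor_add_one _
  obtain ⟨ω1, hω1, hnrs'⟩ := hnrs (r1 - r0) v B (1 + 2 * p * K) (by linarith) hv0 hB
  -- properties of `S`
  have hsymm : ∀ h k, ⟪W.S h, k⟫_ℝ = ⟪h, W.S k⟫_ℝ := by
    intro h k
    rw [← W.prp.RR h, ← W.prp.RR k, W.prp.R_symm, W.prp.R_symm]
  have hpos : ∀ h, h ≠ 0 → 0 < ⟪W.S h, h⟫_ℝ := by
    intro h hh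
    rw [← W.prp.RR h, W.prp.R_symm, real_inner_self_eq_norm_sq]
    have : W.R h ≠ 0 := fun h0 => hh (W.prp.R_inj (by rw [h0, map_zero]))
    have := norm_pos_iff.2 this
    positivity
  obtain ⟨ω, hωΛ, hωpos, φ, hφ, hφS⟩ := hinf (Lp ℝ 2 (nu d h)) W.S hcomp hsymm hpos
    (hifd d r0 r1 h hd1 hr0 hr1) (max ω0 ω1)
  have hωω0 : ω0 ≤ ω := le_trans (le_max_left _ _) hωΛ
  have hωω1 : ω1 ≤ ω := le_trans (le_max_right _ _) hωΛ
  -- the equation almost everywhere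
  have hae : ∀ (l : ℝ) (u : Lp ℝ 2 (nu d h)), u = l • W.S u →
      u =ᵐ[nu d h] (fun r => l * W.SX u r) := by
    intro l u hu
    have h1 : u = l • A.e (W.SX u) := by rw [W.e_SX]; exact hu
    have h2 := Lp.coeFn_smul l (A.e (W.SX u))
    have h3 := he (W.SX u)
    have h4 : (u : Ic r0 r1 → ℝ) =ᵐ[nu d h] (l • A.e (W.SX u) : Lp ℝ 2 (nu d h)) := by
      rw [← h1]
    filter_upwards [h2, h3, h4] with a h2 h3 h4
    rw [h4, h2, Pi.smul_apply, h3, smul_eq_mul]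
  have hae' : ∀ (l : ℝ) (u : Lp ℝ 2 (nu d h)), u =ᵐ[nu d h] (fun r => l * W.SX u r) →
      u = l • W.S u := by
    intro l u hu
    rw [← W.e_SX]
    apply Lp.ext
    have h2 := Lp.coeFn_smul l (A.e (W.SX u))
    have h3 := he (W.SX u)
    filter_upwards [hu, h2, h3] with a hu h2 h3
    rw [hu, h2, Pi.smul_apply, h3, smul_eq_mul]
  have hφae := hae (ω ^ 2) φ hφS
  obtain ⟨hn, hm⟩ := hspb' ω φ hωω0 hφ hφae
  -- the function `x`
  obtain ⟨x, hx⟩ : ∃ x, x = W.SX ((ω ^ 2) • φ) := ⟨_, rfl⟩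
  rw [← hx] at hn
  have hxe : A.e x = φ := by
    rw [hx, W.e_SX, map_smul]
    exact hφS.symm
  have hφx : φ =ᵐ[nu d h] x := by
    rw [← hxe]; exact he x
  have hφφ : ⟪φ, φ⟫_ℝ = ∫ s, x s ^ 2 ∂(nu d h) := by
    rw [inner_L2 φ φ hφx hφx]
    exact integral_congr_ae (Eventually.of_forall fun s => (sq (x s)).symm)
  have hγ : ⟪A.e (x ^ (2 * p + 1)), φ⟫_ℝ = ∫ s, x s ^ (2 * p + 2) ∂(nu d h) := by
    rw [inner_L2 _ _ (he (x ^ (2 * p + 1))) hφx]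
    refine integral_congr_ae (Eventually.of_forall fun s => ?_)
    change (x ^ (2 * p + 1)) s * x s = x s ^ (2 * p + 2)
    rw [ContinuousMap.pow_apply, ← pow_succ]
  have hφφ0 : 0 < ⟪φ, φ⟫_ℝ := by
    rw [real_inner_self_eq_norm_sq]
    have := norm_pos_iff.2 hφ
    positivity
  have hpw := hpwm r0 r1 (nu d h) p x
  rw [← hφφ, ← hγ, ← hV] at hpw
  obtain ⟨g, hg⟩ : ∃ g, g = ⟪A.e (x ^ (2 * p + 1)), φ⟫_ℝ := ⟨_, rfl⟩
  obtain ⟨f, hf⟩ : ∃ f, f = ⟪φ, φ⟫_ℝ := ⟨_, rfl⟩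
  rw [← hg, ← hf] at hpw
  rw [← hf] at hn hφφ0
  have hg0 : 0 < g := by
    have h1 : 0 < f ^ (p + 1) := by positivity
    have h2 : 0 < V ^ p * g := lt_of_lt_of_le h1 hpw
    exact (mul_pos_iff_of_pos_left (by positivity)).1 h2
  have hgf : f ^ p ≤ V ^ p * (g / f) := by
    have h1 : f ^ p = f ^ (p + 1) / f := by
      rw [pow_succ]; field_simp
    have h2 : V ^ p * (g / f) = V ^ p * g / f := by ring
    rw [h1, h2]
    exact div_le_div_of_nonneg_right hpw hφφ0.le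
  refine ⟨K, ω, φ, by rw [hK]; omega, hωpos, hφ, ?_, ?_, ?_, ?_⟩
  · exact hφS.symm
  · rw [← hx, ← hg]; exact hg0
  · rw [← hx, ← hg, ← hf]
    have h1 : ‖x‖ ^ (2 * p) ≤ B ^ p * f ^ p := by
      rw [pow_mul, ← mul_pow]
      exact pow_le_pow_left₀ (sq_nonneg _) hn p
    have h2 : B ^ p * f ^ p ≤ B ^ p * (V ^ p * (g / f)) :=
      mul_le_mul_of_nonneg_left hgf (by positivity)
    have hgf0 : 0 < g / f := div_pos hg0 hφφ0
    calc (2 * (p : ℝ) + 1) * ‖x‖ ^ (2 * p) ≤ (2 * p + 1) * (B ^ p * (V ^ p * (g / f))) :=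
          mul_le_mul_of_nonneg_left (h1.trans h2) (by positivity)
      _ = ((2 * (p : ℝ) + 1) * B ^ p * V ^ p) * (g / f) := by ring
      _ < (K * (p * cp p)) * (g / f) := mul_lt_mul_of_pos_right hK1 hgf0
      _ = K * (p * cp p * (g / f)) := by ring
  · refine ⟨?_, ?_⟩
    · intro F hF
      refine (hfre (Lp ℝ 2 (nu d h)) W.S (ω ^ 2) hcomp hsymm).2 φ hφ hφS ?_ F hF
      intro u hu
      exact hsps d r0 r1 h D W.SX ω φ u hd1 hr0 hr1 hopr hωpos hφ hφae (hae _ u hu)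
    · intro n hn1 hn3 hnM F
      refine (hfre (Lp ℝ 2 (nu d h)) W.S ((n : ℝ) ^ 2 * ω ^ 2) hcomp hsymm).1 ?_ F
      intro u hu
      by_contra hu0
      have hn3' : (3 : ℝ) ≤ n := by exact_mod_cast hn3
      have e1 : (n : ℝ) ^ 2 * ω ^ 2 = (n * ω) ^ 2 := by ring
      rw [e1] at hu
      have h1 : ω0 ≤ n * ω := by nlinarith
      obtain ⟨-, hm2⟩ := hspb' (n * ω) u h1 hu0 (hae _ u hu)
      rw [← hv] at hm hm2
      exact hnrs' ω n hωω1 (by omega) hnM hm hm2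

end

end Pool.Agent.BE01.H87
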